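import Pool.Agent.Helper9K9.ZY.Univ

/-!
# Zilber-Pink for all `Y(1)ⁿ` is Zilber-Pink for the powers of the surface `x² + y = z`

`F = {x² + y = z}` in `Y(1)³`. If for every `k` the variety `F ^ k` in `Y(1) ^ (3k)` has only
finitely many maximal atypical subvarieties, then so has every closed subvariety (over the complex
numbers) of every `Y(1)ⁿ`.
-/

set_option autoImplicit false

namespace Pool.Agent.Results.MP_dd1803_nt.PowersOfASurface

open MvPolynomial UpperHalfPlane

variable {ι : Type}

/-- The closed subvariety of `Y(1) ^ ι = ℂ ^ ι` defined by a set of polynomials. -/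
def zeros (S : Set (MvPolynomial ι ℂ)) : Set (ι → ℂ) := {x | ∀ f ∈ S, eval x f = 0}

/-- The ideal of all polynomials which vanish on a set of points. -/
noncomputable def idealOf (A : Set (ι → ℂ)) : Ideal (MvPolynomial ι ℂ) :=
  ⨅ x ∈ A, RingHom.ker (eval x : MvPolynomial ι ℂ →+* ℂ)

/-- Irreducible closed subvarieties. -/
def IsIrr (A : Set (ι → ℂ)) : Prop := (∃ S, A = zeros S) ∧ (idealOf A).IsPrime

/-- The dimension of an irreducible subvariety: the transcendence degree of its ring of
functions. -/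
noncomputable def dimI (A : Set (ι → ℂ)) : ℕ :=
  Cardinal.toNat (Algebra.trdeg ℂ (MvPolynomial ι ℂ ⧸ idealOf A))

/-- The dimension of a subvariety: the largest dimension of an irreducible subvariety of it. -/
noncomputable def dimension (V : Set (ι → ℂ)) : ℕ :=
  sSup {d | ∃ A, IsIrr A ∧ A ⊆ V ∧ dimI A = d}

/-- `A` is an irreducible component of `X`. -/
def IsComponent (A X : Set (ι → ℂ)) : Prop :=
  IsIrr A ∧ A ⊆ X ∧ ∀ B, IsIrr B → A ⊆ B → B ⊆ X → B = A

/-- The modular `j`-function `E₄³ / Δ`. -/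
noncomputable def j (τ : ℍ) : ℂ := ModularForm.E₄ τ ^ 3 / ModularForm.discriminant τ

/-- `Φ_N (x, y) = 0` for the classical modular polynomial of level `N`: `y = j τ` and
`x = j w`, `w = (g₀₀ τ + g₀₁) / (g₁₀ τ + g₁₁)`, for a primitive integral matrix `g` of
determinant `N`. -/
def Phi (N : ℕ) (x y : ℂ) : Prop :=
  ∃ (g : Matrix (Fin 2) (Fin 2) ℤ) (τ w : ℍ), g.det = N ∧
    (∀ d : ℤ, (∀ a b, d ∣ g a b) → IsUnit d) ∧
    (w : ℂ) * (g 1 0 * τ + g 1 1) = g 0 0 * τ + g 0 1 ∧ x = j w ∧ y = j τ

/-- The subset cut out by finitely many modular equations `Φ_N (x_a, x_b) = 0`. -/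
def cut (E : Finset (ℕ × ι × ι)) : Set (ι → ℂ) := {x | ∀ e ∈ E, Phi e.1 (x e.2.1) (x e.2.2)}

/-- Special subvarieties: the irreducible components of the subsets cut out by finitely many
modular equations. -/
def IsSpecial (T : Set (ι → ℂ)) : Prop :=
  ∃ E : Finset (ℕ × ι × ι), (∀ e ∈ E, 1 ≤ e.1) ∧ IsComponent T (cut E)

/-- `A` is an atypical subvariety of `V`: a component of `V ∩ T`, for a special `T`, with
`dim A > dim V + dim T - n`. -/
def Atypical [Fintype ι] (V A : Set (ι → ℂ)) : Prop :=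
  ∃ T : Set (ι → ℂ), IsSpecial T ∧ IsComponent A (V ∩ T) ∧
    dimension V + dimI T < dimI A + Fintype.card ι

/-- `V` has only finitely many maximal atypical subvarieties. -/
def ZilberPink [Fintype ι] (V : Set (ι → ℂ)) : Prop :=
  {A | Atypical V A ∧ ∀ B, Atypical V B → A ⊆ B → B = A}.Finite

/-- The `k`-th power of the surface `x² + y = z` in `Y(1)³`. -/
def surface (k : ℕ) : Set (Fin k × Fin 3 → ℂ) :=
  {x | ∀ g, x (g, 0) ^ 2 + x (g, 1) = x (g, 2)}

/-- The Zilber-Pink conjecture holds for all closed subvarieties of all `Y(1)ⁿ` over the complex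
numbers if and only if it holds for all powers of the surface `x² + y = z` in `Y(1)³`. -/
theorem result :
    (∀ k : ℕ, ZilberPink (surface k)) ↔
      ∀ (ι : Type) [Fintype ι] (S : Set (MvPolynomial ι ℂ)), ZilberPink (zeros S) :=
  Pool.Agent.Helper9K9.ZY.univ

end Pool.Agent.Results.MP_dd1803_nt.PowersOfASurface
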