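import Pool.Agent.Helper9K9.ZU.Univ

/-!
# Zilber-Pink for all algebraic tori is Zilber-Pink for the powers of the line `x + y = 1`

`L = {x + y = 1}` in `𝔾ₘ²`. If for every `k` the variety `L ^ k` in `𝔾ₘ ^ (2k)` has only finitely
many maximal atypical subvarieties, then so has every closed subvariety (over the complex numbers)
of every algebraic torus.
-/

set_option autoImplicit false

namespace Pool.Agent.Results.MP_dd1803_nt.PowersOfTheLine

open MvPolynomial

variable {ι : Type}

/-- The closed subvariety of the torus `𝔾ₘ ^ ι` (the points without zero coordinates) defined by a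
set of polynomials. -/
def zeros (S : Set (MvPolynomial ι ℂ)) : Set (ι → ℂ) :=
  {x | (∀ j, x j ≠ 0) ∧ ∀ f ∈ S, eval x f = 0}

/-- The ideal of all polynomials which vanish on a set of points. -/
noncomputable def idealOf (A : Set (ι → ℂ)) : Ideal (MvPolynomial ι ℂ) :=
  ⨅ x ∈ A, RingHom.ker (eval x : MvPolynomial ι ℂ →+* ℂ)

/-- Irreducible closed subvarieties of the torus. -/
def IsIrr (A : Set (ι → ℂ)) : Prop := (∃ S, A = zeros S) ∧ (idealOf A).IsPrime

/-- The dimension of an irreducible subvariety: the transcendence degree of its ring of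
functions. -/
noncomputable def dimI (A : Set (ι → ℂ)) : ℕ :=
  Cardinal.toNat (Algebra.trdeg ℂ (MvPolynomial ι ℂ ⧸ idealOf A))

/-- The dimension of a subvariety: the largest dimension of an irreducible subvariety of it. -/
noncomputable def dimension (V : Set (ι → ℂ)) : ℕ :=
  sSup {d | ∃ A, IsIrr A ∧ A ⊆ V ∧ dimI A = d}

/-- `A` is an irreducible component of `X`. -/
def IsComponent (A X : Set (ι → ℂ)) : Prop :=
  IsIrr A ∧ A ⊆ X ∧ ∀ B, IsIrr B → A ⊆ B → B ⊆ X → B = A

/-- The coset `η T` with `T = {x | x ^ a = 1 for all a in M}`. -/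
def coset [Fintype ι] (M : Submodule ℤ (ι → ℤ)) (η : ι → ℂ) : Set (ι → ℂ) :=
  {x | (∀ j, x j ≠ 0) ∧ ∀ a ∈ M, ∏ j, x j ^ a j = ∏ j, η j ^ a j}

/-- `coset M η` is a torsion coset of a subtorus (of codimension the rank of `M`): `M` is a
saturated sublattice of `ℤ ^ ι` and `η` is a point of finite order. -/
def IsTorsionCoset (M : Submodule ℤ (ι → ℤ)) (η : ι → ℂ) : Prop :=
  (∀ (a : ι → ℤ) (m : ℤ), m ≠ 0 → m • a ∈ M → a ∈ M) ∧ ∃ m : ℕ, 0 < m ∧ ∀ j, η j ^ m = 1

/-- `A` is an atypical subvariety of `V`: a component of `V ∩ T`, for a torsion coset `T`, with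
`dim A > dim V - codim T`. -/
def Atypical [Fintype ι] (V A : Set (ι → ℂ)) : Prop :=
  ∃ (M : Submodule ℤ (ι → ℤ)) (η : ι → ℂ), IsTorsionCoset M η ∧
    IsComponent A (V ∩ coset M η) ∧ dimension V < dimI A + Module.finrank ℤ M

/-- `V` has only finitely many maximal atypical subvarieties. -/
def ZilberPink [Fintype ι] (V : Set (ι → ℂ)) : Prop :=
  {A | Atypical V A ∧ ∀ B, Atypical V B → A ⊆ B → B = A}.Finite

/-- The `k`-th power of the line `x + y = 1` in `𝔾ₘ²`. -/
def line (k : ℕ) : Set (Fin k × Fin 2 → ℂ) :=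
  {x | (∀ p, x p ≠ 0) ∧ ∀ g, x (g, 0) + x (g, 1) = 1}

/-- The Zilber-Pink conjecture holds for all closed subvarieties of all algebraic tori over the
complex numbers if and only if it holds for all powers of the line `x + y = 1`. -/
theorem result :
    (∀ k : ℕ, ZilberPink (line k)) ↔
      ∀ (ι : Type) [Fintype ι] (S : Set (MvPolynomial ι ℂ)), ZilberPink (zeros S) :=
  Pool.Agent.Helper9K9.ZU.univ

end Pool.Agent.Results.MP_dd1803_nt.PowersOfTheLine
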